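import Pool.Agent.HighLow_e5c6.Karamata
import Pool.Agent.HighLow_e5c6.SelectFin

/-!
# The continuous high-low game: the hider has optimal strategies, and what they look like

The supremum in the hider's maximin value is attained. Every optimal hider strategy has support
`[0,1]`, has no atoms, and its distribution function is slowly varying at both ends. Exactly one
optimal strategy has the largest mean difference `E |X - Y|`; it is symmetric about `1/2`, and it is
the weak limit of explicit strategies: in the finite game with `N` cells let `m_N` be the unique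
weights which maximise the quadratic form `quad N` among the weights which are optimal up to
`3 / √N`, and spread `m_N` uniformly over the cells.
-/

set_option autoImplicit false

namespace Pool.Agent.Results.MP_e5c6de_an.Answer

open MeasureTheory Set Filter Topology Pool.Agent.HighLow Pool.Agent.HighLow.BTree
open scoped ENNReal

/-- A hider strategy is optimal if it guarantees the maximin value. -/
def IsOptimal (ν : ProbabilityMeasure (Icc (0 : ℝ) 1)) : Prop := guaranteed ν = maximin

theorem result :
    -- the supremum is attained; exactly one optimal strategy has the largest mean difference, it is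
    -- symmetric about `1/2`, and it is the weak limit of the smears of the selected weights
    (∃ ν : ProbabilityMeasure (Icc (0 : ℝ) 1), IsOptimal ν ∧
      (∀ ν' : ProbabilityMeasure (Icc (0 : ℝ) 1), IsOptimal ν' → ν' ≠ ν →
        meanDiff (ν' : Measure (Icc (0 : ℝ) 1)) < meanDiff (ν : Measure (Icc (0 : ℝ) 1))) ∧
      (ν : Measure (Icc (0 : ℝ) 1)).map unitInterval.symm = (ν : Measure (Icc (0 : ℝ) 1)) ∧
      ∀ m : ∀ N : ℕ, Fin (N + 1) → ℝ, (∀ N, Selected (N + 1) (m N)) →
        ∃ νs : ℕ → ProbabilityMeasure (Icc (0 : ℝ) 1),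
          (∀ N, (νs N : Measure (Icc (0 : ℝ) 1)) = smear (N + 1) (m N)) ∧
          Tendsto νs atTop (𝓝 ν)) ∧
    -- every optimal hider strategy has no atoms and support `[0,1]`, and `ν [0, y]`,
    -- `ν [1 - y, 1]` are slowly varying as `y → 0`
    (∀ ν : ProbabilityMeasure (Icc (0 : ℝ) 1), IsOptimal ν →
      (∀ x : Icc (0 : ℝ) 1, (ν : Measure (Icc (0 : ℝ) 1)) {x} = 0) ∧
      (∀ U : Set (Icc (0 : ℝ) 1), IsOpen U → U.Nonempty →
        0 < (ν : Measure (Icc (0 : ℝ) 1)) U) ∧
      (∀ t : ℝ, 0 < t →
        Tendsto (fun y => massL ν (t * y) / massL ν y) (𝓝[>] 0) (𝓝 1) ∧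
        Tendsto (fun y => massR ν (t * y) / massR ν y) (𝓝[>] 0) (𝓝 1))) ∧
    -- the finite game with `N` cells: finitely many trees, exactly one selected vector of weights,
    -- optimal weights exist, and the value is within `2 / √N` of the (finite) maximin value
    maximin ≠ ∞ ∧
    (∀ N : ℕ, 0 < N → {T : BTree | WF T 0 N}.Finite ∧ (∃! m, Selected N m) ∧
      (∃ m, OptFin N m) ∧ |maximin.toReal - fval N| ≤ 2 / √N) ∧
    -- weights which are optimal up to `e`, spread uniformly over the cells, are an
    -- `e + 3 / √N`-optimal hider strategy with mean difference `quad N m`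
    (∀ (N : ℕ) (m : Fin N → ℝ) (e : ℝ), 0 < N → m ∈ stdSimplex ℝ (Fin N) →
      (∀ T : BTree, WF T 0 N → fval N - e ≤ fcost N T m) →
      ∃ ν : ProbabilityMeasure (Icc (0 : ℝ) 1), (ν : Measure (Icc (0 : ℝ) 1)) = smear N m ∧
        meanDiff (ν : Measure (Icc (0 : ℝ) 1)) = quad N m ∧
        maximin ≤ guaranteed ν + ENNReal.ofReal (e + 3 / √N)) := by
  obtain ⟨ν, hν, hmax, hsymm⟩ := exists_unique_max
  refine ⟨⟨ν, hν, hmax, hsymm, fun m hm =>
      ⟨fun N => ⟨smear (N + 1) (m N), smear_prob (hm N).1.1⟩, fun N => rfl,
        tendsto_selected hν hmax hm fun N => rfl⟩⟩,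
    fun ν hν => ⟨optimal_nonatomic hν, fun U hU hne => optimal_pos hν hU hne,
      fun t ht => ⟨slow_variation hν ht, slow_variation_right hν ht⟩⟩,
    maximin_ne_top, fun N hN => ⟨finite_WF N 0 N (by omega), existsUnique_selected hN,
      exists_optFin hN, abs_fval_sub hN⟩,
    fun N m e hN hm hv => ⟨⟨smear N m, smear_prob hm⟩, rfl, meanDiff_smear hm,
      smear_near hN hm hv _ rfl⟩⟩

end Pool.Agent.Results.MP_e5c6de_an.Answer
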