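import Pool.Agent.HighLow_e5c6.RedOpt
import Pool.Agent.HighLow_e5c6.MixCheck
import Pool.Agent.HighLow_e5c6.ClusterBound
import Pool.Agent.HighLow_e5c6.PureLower

/-!
# The continuous high-low game: the value in mixed strategies

The game has a value, both players have optimal strategies, and the value lies between `0.605`
and `0.615`, while every pure strategy of Red gives up at least `0.62434` for some hidden number.
So mixing strictly helps Red.
-/

set_option autoImplicit false

namespace Pool.Agent.Results.MP_e5c6de_an.MixedValue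

open MeasureTheory Set Pool.Agent.HighLow
open scoped ENNReal

/-- The minimax value: what Red can guarantee with mixed strategies. -/
noncomputable def minimax : ℝ≥0∞ :=
  ⨅ σ : ProbabilityMeasure Strategy, ⨆ ν : ProbabilityMeasure (Icc (0 : ℝ) 1), expectedPayoff ν σ

theorem result :
    -- the game has a value
    minimax = maximin ∧
    -- both players have optimal strategies
    (∃ (ν : ProbabilityMeasure (Icc (0 : ℝ) 1)) (σ : ProbabilityMeasure Strategy),
      (∀ ν', expectedPayoff ν' σ ≤ maximin) ∧ (∀ σ', maximin ≤ expectedPayoff ν σ')) ∧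
    -- the value is between `0.605` and `0.615`
    ENNReal.ofReal (605 / 1000) ≤ maximin ∧ maximin ≤ ENNReal.ofReal (615 / 1000) ∧
    -- no pure strategy of Red guarantees less than `0.62434`
    (∀ g : Strategy, ENNReal.ofReal (62434 / 100000) ≤ ⨆ h : Icc (0 : ℝ) 1, payoff g h) := by
  obtain ⟨ν, σ, h1, h2⟩ := saddle
  refine ⟨le_antisymm ?_ ?_, ⟨ν, σ, h1, h2⟩, maximin_ge, ?_, ?_⟩
  · exact (iInf_le _ σ).trans (iSup_le h1)
  · exact le_iInf fun σ' => (h2 σ').trans (le_iSup (fun ν' => expectedPayoff ν' σ') ν)
  · obtain ⟨τ, hτ⟩ := mixture_615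
    refine (h2 τ).trans (expectedPayoff_le (c := ENNReal.ofReal (615 / 1000)) (fun h => ?_) ν)
    refine (hτ h).trans (le_of_eq ?_)
    norm_num
  · intro g
    refine (le_of_eq ?_).trans (pure_lower g)
    norm_num

end Pool.Agent.Results.MP_e5c6de_an.MixedValue
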