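import Pool.Agent.HighLow_e5c6.Symm

/-!
# The continuous high-low game: optimal hider strategies

The hider has an optimal strategy; every optimal strategy has no atoms and has support `[0,1]`;
the set of optimal strategies is convex and weakly compact, and contains a strategy which is
symmetric about `1/2`.
-/

set_option autoImplicit false

namespace Pool.Agent.Results.MP_e5c6de_an.OptimalHider

open MeasureTheory Set Pool.Agent.HighLow

/-- A hider strategy is optimal if it guarantees the maximin value. -/
def IsOptimal (ν : ProbabilityMeasure (Icc (0 : ℝ) 1)) : Prop := guaranteed ν = maximin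

theorem result :
    -- an optimal hider strategy exists, even one which is symmetric about `1/2`
    (∃ ν : ProbabilityMeasure (Icc (0 : ℝ) 1), IsOptimal ν ∧
      (ν : Measure (Icc (0 : ℝ) 1)).map unitInterval.symm = (ν : Measure (Icc (0 : ℝ) 1))) ∧
    -- every optimal hider strategy has no atoms and full support
    (∀ ν : ProbabilityMeasure (Icc (0 : ℝ) 1), IsOptimal ν →
      (∀ x : Icc (0 : ℝ) 1, (ν : Measure (Icc (0 : ℝ) 1)) {x} = 0) ∧
      (∀ U : Set (Icc (0 : ℝ) 1), IsOpen U → U.Nonempty →
        0 < (ν : Measure (Icc (0 : ℝ) 1)) U)) ∧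
    -- the set of optimal strategies is convex
    (∀ μ μ' ρ : ProbabilityMeasure (Icc (0 : ℝ) 1), ∀ t : ℝ, 0 ≤ t → t ≤ 1 →
      IsOptimal μ → IsOptimal μ' →
      (ρ : Measure (Icc (0 : ℝ) 1)) = ENNReal.ofReal (1 - t) • (μ : Measure (Icc (0 : ℝ) 1)) +
        ENNReal.ofReal t • (μ' : Measure (Icc (0 : ℝ) 1)) → IsOptimal ρ) ∧
    -- and compact in the weak topology
    IsCompact {ν : ProbabilityMeasure (Icc (0 : ℝ) 1) | IsOptimal ν} := by
  refine ⟨exists_symmetric, fun ν hν => ⟨optimal_nonatomic hν, fun U hU hne =>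
    optimal_pos hν hU hne⟩, ?_, isCompact_optimal⟩
  intro μ μ' ρ t ht0 ht1 h1 h2 hρ
  exact optimal_mix h1 h2 ht0 ht1 hρ

end Pool.Agent.Results.MP_e5c6de_an.OptimalHider
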