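import Pool.Agent.HighLow_e5c6.Karamata

/-!
# The continuous high-low game: optimal hider strategies near the endpoints

The distribution function of every optimal hider strategy is slowly varying at both endpoints.
Hence the mass near an endpoint is larger than every power of the distance, and no optimal
strategy has a density in `L^p` near an endpoint for any `p > 1`.
-/

set_option autoImplicit false

namespace Pool.Agent.Results.MP_e5c6de_an.SlowVariation

open MeasureTheory Set Filter Topology Pool.Agent.HighLow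
open scoped ENNReal

/-- A hider strategy is optimal if it guarantees the maximin value. -/
def IsOptimal (ν : ProbabilityMeasure (Icc (0 : ℝ) 1)) : Prop := guaranteed ν = maximin

theorem result (ν : ProbabilityMeasure (Icc (0 : ℝ) 1)) (hν : IsOptimal ν) :
    -- `ν [0, y]` and `ν [1 - y, 1]` are slowly varying as `y → 0`
    (∀ t : ℝ, 0 < t →
      Tendsto (fun y => massL ν (t * y) / massL ν y) (𝓝[>] 0) (𝓝 1) ∧
      Tendsto (fun y => massR ν (t * y) / massR ν y) (𝓝[>] 0) (𝓝 1)) ∧
    -- they are larger than every power of `y`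
    (∀ a : ℝ, 0 < a → ∃ c : ℝ, 0 < c ∧ ∀ y : ℝ, 0 < y → y ≤ 1 →
      c * y ^ a ≤ massL ν y ∧ c * y ^ a ≤ massR ν y) ∧
    -- if `ν` has a density near an endpoint, then it is in no `L^p`, `p > 1`, there
    (∀ (f : Icc (0 : ℝ) 1 → ℝ≥0∞) (U : Set (Icc (0 : ℝ) 1)), Measurable f → IsOpen U →
      ((0 : Icc (0 : ℝ) 1) ∈ U ∨ (1 : Icc (0 : ℝ) 1) ∈ U) →
      (∀ A ⊆ U, MeasurableSet A → (ν : Measure (Icc (0 : ℝ) 1)) A = ∫⁻ h in A, f h) →
      ∀ p : ℝ, 1 < p → ∫⁻ h in U, f h ^ p = ∞) := by
  refine ⟨fun t ht => ⟨slow_variation hν ht, slow_variation_right hν ht⟩, fun a ha => ?_,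
    fun f U hf hU hmem hd p hp => no_lp hν hf hU hmem hd hp⟩
  obtain ⟨c, hc0, hc⟩ := mass_ge_power hν ha
  obtain ⟨d, hd0, hd⟩ := massR_ge_power hν ha
  refine ⟨min c d, lt_min hc0 hd0, fun y hy0 hy1 => ⟨?_, ?_⟩⟩
  · exact (mul_le_mul_of_nonneg_right (min_le_left c d) (by positivity)).trans (hc y hy0 hy1)
  · exact (mul_le_mul_of_nonneg_right (min_le_right c d) (by positivity)).trans (hd y hy0 hy1)

end Pool.Agent.Results.MP_e5c6de_an.SlowVariation
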